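import Pool.Agent.H24.EH.Defs
import Pool.Agent.H10.EH.FC

/-!
# EHP: `FHyp.right` for `F_A` and `F_B`
-/

set_option autoImplicit false

open Real
open Pool.EH (rh RR FA FB FAg FAl FBg FBl FAgg FAgl FAll FBgg FBgl FBll DA EA DB EB)
open Pool.Agent.H24.EH (rho)

noncomputable section

namespace Pool.Agent.H84.EH

theorem ndiv {ρ N D b : ℝ} (hρ : 0 < ρ) (hD : ρ ^ 2 / 4 ≤ D) (hN : |N| ≤ b * ρ ^ 2) :
    |N / D| ≤ 4 * b := by
  have h1 : 0 < ρ ^ 2 / 4 := by positivity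
  have hDp : 0 < D := h1.trans_le hD
  rw [abs_div, abs_of_pos hDp, div_le_iff₀ hDp]
  have hb : 0 ≤ b := by
    by_contra h
    push Not at h
    have := abs_nonneg N
    have h2 : 0 < ρ ^ 2 := by positivity
    nlinarith
  nlinarith

/-- the estimates for the range, abstract form -/
structure Rg (ρ R T X C S a : ℝ) : Prop where
  hρ : 2 ≤ ρ
  hR : ρ / 2 ≤ R
  hR2 : R ≤ 3 / 2 * ρ
  hT : ρ / 2 ≤ T
  hT2 : T ≤ a * ρ
  hX0 : 0 ≤ X
  hX : X ≤ a * ρ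
  hC0 : 0 ≤ C
  hC : C ≤ 5 / 2 * ρ
  hS0 : 0 ≤ S
  hS : S ≤ 5 / 2 * ρ
  ha : 1 ≤ a

theorem Rg.D {ρ R T X C S a : ℝ} (h : Rg ρ R T X C S a) : ρ ^ 2 / 4 ≤ R * T := by
  have h1 := h.hρ
  have h2 := h.hR
  have h3 := h.hT
  nlinarith [mul_le_mul h2 h3 (by linarith) (by linarith)]

theorem range_basic {p l g : ℝ} (hp : 0 < p) (hp1 : p < 1) (hl : log 8 ≤ l) (hg : 0 < g)
    (hr : |cosh g - 2 * rho l| ≤ 1) :
    2 ≤ rh l ∧ rh l - p ≤ RR p l g ∧ RR p l g ≤ rh l + p ∧ 2 * rh l - 1 ≤ cosh g ∧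
      cosh g ≤ 2 * rh l + 1 ∧ 0 < sinh g ∧ sinh g ≤ 2 * rh l + 1 := by
  have h8 : 8 ≤ exp l := by
    have := (log_le_iff_le_exp (by norm_num : (0 : ℝ) < 8)).1 hl
    exact this
  have hρ : 2 ≤ rh l := by unfold Pool.EH.rh; linarith
  have hrr : rho l = rh l := rfl
  rw [hrr] at hr
  obtain ⟨h1, h2⟩ := abs_le.1 hr
  have hR := Pool.EH.RR_pos hp hp1 l hg
  have hR2 := Pool.EH.RR_sq' hp hp1 l g
  have hS : 0 < sinh g := sinh_pos_iff.2 hg
  have hSC : sinh g ≤ cosh g := (sinh_lt_cosh g).le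
  refine ⟨hρ, ?_, ?_, by linarith, by linarith, hS, by linarith⟩
  · have h3 : (rh l - p) ^ 2 ≤ RR p l g ^ 2 := by
      rw [hR2]
      have h5 : 0 ≤ p * ((1 + (cosh g - 2 * rh l)) * (cosh g - 1)) := by
        refine mul_nonneg hp.le (mul_nonneg (by linarith) (by linarith))
      nlinarith
    exact le_of_sq_le_sq h3 hR.le
  · have h3 : RR p l g ^ 2 ≤ (rh l + p) ^ 2 := by
      rw [hR2]
      have h5 : 0 ≤ p * ((1 - (cosh g - 2 * rh l)) * (cosh g + 1)) := by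
        refine mul_nonneg hp.le (mul_nonneg (by linarith) (by linarith))
      nlinarith
    exact le_of_sq_le_sq h3 (by linarith)

/-- the coordinates of `F_A` in the range -/
theorem Rg_A {p l g : ℝ} (hp : 0 < p) (hp1 : p < 1) (hl : log 8 ≤ l) (hg : 0 < g)
    (hr : |cosh g - 2 * rho l| ≤ 1) :
    Rg (rh l) (RR p l g) (sinh (FA p l g)) (cosh (FA p l g)) (cosh g) (sinh g) (5 / 2 / p) := by
  obtain ⟨h1, h2, h3, h4, h5, h6, h7⟩ := range_basic hp hp1 hl hg hr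
  have hX := Pool.EH.cosh_FA hp hp1 l hg
  have hT := Pool.EH.sinh_FA_pos hp hp1 l hg
  have hTX := (sinh_lt_cosh (FA p l g)).le
  have hX2 : cosh (FA p l g) ≤ 5 / 2 / p * rh l := by
    rw [hX, div_mul_eq_mul_div]
    exact (div_le_div_iff_of_pos_right hp).2 (by linarith)
  have hX1 : 3 / 2 * rh l ≤ cosh (FA p l g) := by
    rw [hX, le_div_iff₀ hp]
    nlinarith
  have hsq := cosh_sq (FA p l g)
  refine ⟨h1, by linarith, by linarith, ?_, hTX.trans hX2, (cosh_pos _).le, hX2, by linarith,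
    by linarith, h6.le, by linarith, ?_⟩
  · nlinarith
  · rw [le_div_iff₀ hp]
    linarith

/-- the coordinates of `F_B` in the range -/
theorem Rg_B {p l g : ℝ} (hp : 0 < p) (hp1 : p < 1) (hl : log 8 ≤ l) (hg : 0 < g)
    (hr : |cosh g - 2 * rho l| ≤ 1) :
    Rg (rh l) (RR p l g) (sinh (FB p l g)) (cosh (FB p l g)) (cosh g) (sinh g)
      (3 / (1 - p)) := by
  obtain ⟨h1, h2, h3, h4, h5, h6, h7⟩ := range_basic hp hp1 hl hg hr
  have hq : 0 < 1 - p := by linarith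
  have hX := Pool.EH.cosh_FB hp hp1 l hg
  have hT := Pool.EH.sinh_FB_pos hp hp1 l hg
  have hTX := (sinh_lt_cosh (FB p l g)).le
  have hX2 : cosh (FB p l g) ≤ 3 / (1 - p) * rh l := by
    rw [hX, div_mul_eq_mul_div]
    exact (div_le_div_iff_of_pos_right hq).2 (by linarith)
  have hX1 : rh l ≤ cosh (FB p l g) := by
    rw [hX, le_div_iff₀ hq]
    nlinarith
  have hsq := cosh_sq (FB p l g)
  refine ⟨h1, by linarith, by linarith, ?_, hTX.trans hX2, (cosh_pos _).le, hX2, by linarith,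
    by linarith, h6.le, by linarith, ?_⟩
  · nlinarith
  · rw [le_div_iff₀ hq]
    linarith

/-- the four derivative bounds for `A` from the abstract data -/
theorem core_A {ρ R T X C S a p : ℝ} (h : Rg ρ R T X C S a) (hp : 0 < p) (hp1 : p < 1) :
    |ρ * (X - C) / (R * T)| ≤ 4 * (a + 5 / 2) ∧ |S * (C - ρ) / (R * T)| ≤ 4 * (35 / 4) := by
  obtain ⟨h1, h2, h3, h4, h5, h6, h7, h8, h9, h10, h11, h12⟩ := h
  have hD : ρ ^ 2 / 4 ≤ R * T := by
    nlinarith [mul_le_mul h2 h4 (by linarith) (by linarith)]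
  have hρ : 0 < ρ := by linarith
  constructor
  · refine ndiv hρ hD ?_
    rw [abs_mul, abs_of_pos hρ]
    have : |X - C| ≤ (a + 5 / 2) * ρ := by
      rw [abs_le]
      constructor <;> nlinarith
    calc ρ * |X - C| ≤ ρ * ((a + 5 / 2) * ρ) := mul_le_mul_of_nonneg_left this hρ.le
      _ = (a + 5 / 2) * ρ ^ 2 := by ring
  · refine ndiv hρ hD ?_
    rw [abs_mul, abs_of_nonneg h10]
    have : |C - ρ| ≤ 7 / 2 * ρ := by
      rw [abs_le]
      constructor <;> nlinarith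
    calc S * |C - ρ| ≤ (5 / 2 * ρ) * (7 / 2 * ρ) :=
          mul_le_mul h11 this (abs_nonneg _) (by linarith)
      _ = 35 / 4 * ρ ^ 2 := by ring

/-- `|x y| ≤ b c` -/
theorem abs_mul_le' {x y b c : ℝ} (hx : |x| ≤ b) (hy : |y| ≤ c) : |x * y| ≤ b * c := by
  rw [abs_mul]
  exact mul_le_mul hx hy (abs_nonneg _) ((abs_nonneg _).trans hx)

theorem abs_add' {x y b c : ℝ} (hx : |x| ≤ b) (hy : |y| ≤ c) : |x + y| ≤ b + c :=
  (abs_add_le x y).trans (add_le_add hx hy)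

theorem abs_sub'' {x y b c : ℝ} (hx : |x| ≤ b) (hy : |y| ≤ c) : |x - y| ≤ b + c :=
  (abs_sub x y).trans (add_le_add hx hy)

theorem four_A {ρ R T X C S a p Fl Fg : ℝ} (h : Rg ρ R T X C S a) (hp : 0 < p) (hp1 : p < 1)
    (hFl : Fl = ρ * (X - C) / (R * T)) (hFg : Fg = S * (C - ρ) / (R * T)) :
    |Fl| ≤ 4 * (a + 5 / 2) ∧ |Fg| ≤ 35 ∧
    |(ρ * (T * Fg - S) - (p * T ^ 2 + R * X) * Fg * Fl) / (R * T)| ≤
      4 * (35 * a + 5 / 2 + (a ^ 2 + 3 / 2 * a) * 35 * (4 * (a + 5 / 2))) ∧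
    |(C * (C - ρ) + S ^ 2 - (p * T ^ 2 + R * X) * Fg ^ 2) / (R * T)| ≤
      4 * (15 + (a ^ 2 + 3 / 2 * a) * 35 ^ 2) := by
  obtain ⟨k1, k2⟩ := core_A h hp hp1
  rw [← hFl] at k1
  rw [← hFg, show (4 : ℝ) * (35 / 4) = 35 by norm_num] at k2
  have hD := h.D
  obtain ⟨h1, h2, h3, h4, h5, h6, h7, h8, h9, h10, h11, h12⟩ := h
  have hρ : 0 < ρ := by linarith
  have aT : |T| ≤ a * ρ := by rw [abs_of_nonneg (by linarith)]; exact h5
  have aX : |X| ≤ a * ρ := by rw [abs_of_nonneg h6]; exact h7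
  have aR : |R| ≤ 3 / 2 * ρ := by rw [abs_of_nonneg (by linarith)]; exact h3
  have aS : |S| ≤ 5 / 2 * ρ := by rw [abs_of_nonneg h10]; exact h11
  have aC : |C| ≤ 5 / 2 * ρ := by rw [abs_of_nonneg h8]; exact h9
  have aρ : |ρ| ≤ ρ := by rw [abs_of_pos hρ]
  have aCρ : |C - ρ| ≤ 7 / 2 * ρ := by
    rw [abs_le]
    constructor <;> nlinarith
  have ap : |p| ≤ 1 := by rw [abs_of_pos hp]; exact hp1.le
  have aE : |p * T ^ 2 + R * X| ≤ (a ^ 2 + 3 / 2 * a) * ρ ^ 2 := by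
    have e1 : |p * T ^ 2| ≤ 1 * (a * ρ) ^ 2 := by
      rw [pow_two, pow_two]
      exact abs_mul_le' ap (abs_mul_le' aT aT)
    have e2 : |R * X| ≤ (3 / 2 * ρ) * (a * ρ) := abs_mul_le' aR aX
    refine (abs_add' e1 e2).trans (le_of_eq ?_)
    ring
  refine ⟨k1, k2, ?_, ?_⟩
  · refine ndiv hρ hD ?_
    have e1 : |ρ * (T * Fg - S)| ≤ ρ * ((a * ρ) * 35 + 5 / 2 * ρ) :=
      abs_mul_le' aρ (abs_sub'' (abs_mul_le' aT k2) aS)
    have e2 : |(p * T ^ 2 + R * X) * Fg * Fl| ≤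
        ((a ^ 2 + 3 / 2 * a) * ρ ^ 2) * 35 * (4 * (a + 5 / 2)) :=
      abs_mul_le' (abs_mul_le' aE k2) k1
    refine (abs_sub'' e1 e2).trans (le_of_eq ?_)
    ring
  · refine ndiv hρ hD ?_
    have e1 : |C * (C - ρ)| ≤ (5 / 2 * ρ) * (7 / 2 * ρ) := abs_mul_le' aC aCρ
    have e2 : |S ^ 2| ≤ (5 / 2 * ρ) * (5 / 2 * ρ) := by
      rw [pow_two]
      exact abs_mul_le' aS aS
    have e3 : |(p * T ^ 2 + R * X) * Fg ^ 2| ≤ ((a ^ 2 + 3 / 2 * a) * ρ ^ 2) * (35 * 35) := by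
      rw [pow_two Fg]
      exact abs_mul_le' aE (abs_mul_le' k2 k2)
    refine (abs_sub'' (abs_add' e1 e2) e3).trans (le_of_eq ?_)
    ring

theorem four_B {ρ R T X C S a q Fl Fg : ℝ} (h : Rg ρ R T X C S a) (hp : 0 < q) (hp1 : q < 1)
    (hFl : Fl = -(ρ * (X - C)) / (R * T)) (hFg : Fg = S * (X - C + ρ) / (R * T)) :
    |Fl| ≤ 4 * (a + 5 / 2) ∧ |Fg| ≤ 4 * (5 / 2 * (a + 7 / 2)) ∧
    |(S * (T * Fl + ρ) - Fg * ((q * T ^ 2 + R * X) * Fl + ρ * T)) / (R * T)| ≤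
      4 * (5 / 2 * (a * (4 * (a + 5 / 2)) + 1) +
        4 * (5 / 2 * (a + 7 / 2)) * ((a ^ 2 + 3 / 2 * a) * (4 * (a + 5 / 2)) + a)) ∧
    |(C * (X - C + ρ) - S ^ 2 + 2 * S * T * Fg - (q * T ^ 2 + R * X) * Fg ^ 2) / (R * T)| ≤
      4 * (5 / 2 * (a + 7 / 2) + 25 / 4 + 5 * a * (4 * (5 / 2 * (a + 7 / 2))) +
        (a ^ 2 + 3 / 2 * a) * (4 * (5 / 2 * (a + 7 / 2))) ^ 2) := by
  have hD := h.D
  obtain ⟨h1, h2, h3, h4, h5, h6, h7, h8, h9, h10, h11, h12⟩ := h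
  have hρ : 0 < ρ := by linarith
  have aT : |T| ≤ a * ρ := by rw [abs_of_nonneg (by linarith)]; exact h5
  have aX : |X| ≤ a * ρ := by rw [abs_of_nonneg h6]; exact h7
  have aR : |R| ≤ 3 / 2 * ρ := by rw [abs_of_nonneg (by linarith)]; exact h3
  have aS : |S| ≤ 5 / 2 * ρ := by rw [abs_of_nonneg h10]; exact h11
  have aC : |C| ≤ 5 / 2 * ρ := by rw [abs_of_nonneg h8]; exact h9
  have aρ : |ρ| ≤ ρ := by rw [abs_of_pos hρ]
  have aXC : |X - C| ≤ (a + 5 / 2) * ρ := by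
    refine (abs_sub'' aX aC).trans (le_of_eq ?_)
    ring
  have aXCρ : |X - C + ρ| ≤ (a + 7 / 2) * ρ := by
    refine (abs_add' aXC aρ).trans (le_of_eq ?_)
    ring
  have ap : |q| ≤ 1 := by rw [abs_of_pos hp]; exact hp1.le
  have k1 : |Fl| ≤ 4 * (a + 5 / 2) := by
    rw [hFl]
    refine ndiv hρ hD ?_
    rw [abs_neg]
    refine (abs_mul_le' aρ aXC).trans (le_of_eq ?_)
    ring
  have k2 : |Fg| ≤ 4 * (5 / 2 * (a + 7 / 2)) := by
    rw [hFg]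
    refine ndiv hρ hD ?_
    refine (abs_mul_le' aS aXCρ).trans (le_of_eq ?_)
    ring
  have aE : |q * T ^ 2 + R * X| ≤ (a ^ 2 + 3 / 2 * a) * ρ ^ 2 := by
    have e1 : |q * T ^ 2| ≤ 1 * (a * ρ) ^ 2 := by
      rw [pow_two, pow_two]
      exact abs_mul_le' ap (abs_mul_le' aT aT)
    have e2 : |R * X| ≤ (3 / 2 * ρ) * (a * ρ) := abs_mul_le' aR aX
    refine (abs_add' e1 e2).trans (le_of_eq ?_)
    ring
  have hρ2 : ρ ≤ ρ ^ 2 := by nlinarith
  have ha0 : 0 ≤ a := by linarith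
  generalize hb : 4 * (a + 5 / 2) = b at *
  generalize hc : 4 * (5 / 2 * (a + 7 / 2)) = c at *
  generalize he : a ^ 2 + 3 / 2 * a = e at *
  refine ⟨k1, k2, ?_, ?_⟩
  · refine ndiv hρ hD ?_
    have e1 : |S * (T * Fl + ρ)| ≤ (5 / 2 * ρ) * ((a * ρ) * b + ρ) :=
      abs_mul_le' aS (abs_add' (abs_mul_le' aT k1) aρ)
    have e2 : |Fg * ((q * T ^ 2 + R * X) * Fl + ρ * T)| ≤ c * ((e * ρ ^ 2) * b + ρ * (a * ρ)) :=
      abs_mul_le' k2 (abs_add' (abs_mul_le' aE k1) (abs_mul_le' aρ aT))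
    refine (abs_sub'' e1 e2).trans (le_of_eq ?_)
    ring
  · refine ndiv hρ hD ?_
    have e1 : |C * (X - C + ρ)| ≤ (5 / 2 * ρ) * ((a + 7 / 2) * ρ) := abs_mul_le' aC aXCρ
    have e2 : |S ^ 2| ≤ (5 / 2 * ρ) * (5 / 2 * ρ) := by
      rw [pow_two]
      exact abs_mul_le' aS aS
    have a2 : |(2 : ℝ)| ≤ 2 := by norm_num
    have e4 : |2 * S * T * Fg| ≤ 2 * (5 / 2 * ρ) * (a * ρ) * c :=
      abs_mul_le' (abs_mul_le' (abs_mul_le' a2 aS) aT) k2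
    have e3 : |(q * T ^ 2 + R * X) * Fg ^ 2| ≤ (e * ρ ^ 2) * (c * c) := by
      rw [pow_two Fg]
      exact abs_mul_le' aE (abs_mul_le' k2 k2)
    refine (abs_sub'' (abs_add' (abs_sub'' e1 e2) e4) e3).trans (le_of_eq ?_)
    ring

theorem abs_log_le {y δ : ℝ} (hy : 1 / 4 ≤ y) (h : |y - 1| ≤ δ) : |log y| ≤ 4 * δ := by
  have hy0 : 0 < y := by linarith
  have h1 : log y ≤ y - 1 := log_le_sub_one_of_pos hy0
  have h2 : -log y ≤ y⁻¹ - 1 := by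
    rw [← log_inv]
    exact log_le_sub_one_of_pos (inv_pos.2 hy0)
  obtain ⟨h3, h4⟩ := abs_le.1 h
  have hδ : 0 ≤ δ := (abs_nonneg _).trans h
  have h5 : y⁻¹ - 1 ≤ 4 * δ := by
    have : y⁻¹ - 1 = (1 - y) / y := by field_simp
    rw [this, div_le_iff₀ hy0]
    nlinarith
  rw [abs_le]
  constructor <;> linarith

/-- `F = log (X + T)`, compared with `l - log q`, if `2X = (4ρ + O(4))/q` -/
theorem far {q l X : ℝ} (hq : 0 < q) (hq1 : q < 1) (hρ : 2 ≤ rh l) (hX : 1 < X)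
    (h1 : (4 * rh l - 4) / q ≤ 2 * X) (h2 : 2 * X ≤ (4 * rh l + 4) / q) :
    |arcosh X - l - -log q| ≤ 20 * exp (-l) := by
  have hX0 : 0 < X := by linarith
  have hs0 : 0 < X ^ 2 - 1 := by nlinarith
  have hT0 : 0 < √(X ^ 2 - 1) := sqrt_pos.2 hs0
  have hT2 : √(X ^ 2 - 1) ^ 2 = X ^ 2 - 1 := sq_sqrt hs0.le
  have hTX : √(X ^ 2 - 1) ≤ X := by
    refine le_of_sq_le_sq ?_ hX0.le
    rw [hT2]
    linarith
  have hTX2 : X - 1 ≤ √(X ^ 2 - 1) := by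
    refine le_of_sq_le_sq ?_ hT0.le
    rw [hT2]
    nlinarith
  have hel : exp l = 4 * rh l := by unfold Pool.EH.rh; ring
  have hy : arcosh X - l - -log q = log ((X + √(X ^ 2 - 1)) * q / exp l) := by
    rw [arcosh, log_div (by positivity) (exp_pos l).ne', log_mul (by positivity) hq.ne', log_exp]
    ring
  have k1 : (X + √(X ^ 2 - 1)) * q ≤ 4 * rh l + 4 := by
    rw [le_div_iff₀ hq] at h2
    nlinarith
  have k2 : 4 * rh l - 5 ≤ (X + √(X ^ 2 - 1)) * q := by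
    rw [div_le_iff₀ hq] at h1
    nlinarith
  have k3 : |(X + √(X ^ 2 - 1)) * q / exp l - 1| ≤ 5 * exp (-l) := by
    rw [exp_neg, div_sub_one (exp_pos l).ne', abs_div, abs_of_pos (exp_pos l), div_eq_mul_inv]
    refine mul_le_mul_of_nonneg_right ?_ (inv_pos.2 (exp_pos l)).le
    rw [hel, abs_le]
    constructor <;> linarith
  have k4 : 1 / 4 ≤ (X + √(X ^ 2 - 1)) * q / exp l := by
    rw [le_div_iff₀ (exp_pos l), hel]
    linarith
  rw [hy]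
  have := abs_log_le k4 k3
  linarith

theorem right_A {p : ℝ} (hp : 0 < p) (hp1 : p < 1) :
    ∃ K, ∀ l g, Real.log 8 ≤ l → 0 < g → |Real.cosh g - 2 * rho l| ≤ 1 →
      |FAl p l g| ≤ K ∧ |FAg p l g| ≤ K ∧ |FAgl p l g| ≤ K ∧ |FAgg p l g| ≤ K ∧
        |FA p l g - l - -Real.log p| ≤ K * Real.exp (-l) := by
  generalize ha : 5 / 2 / p = a
  refine ⟨max (max (4 * (a + 5 / 2)) 35)
    (max (max (4 * (35 * a + 5 / 2 + (a ^ 2 + 3 / 2 * a) * 35 * (4 * (a + 5 / 2))))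
      (4 * (15 + (a ^ 2 + 3 / 2 * a) * 35 ^ 2))) 20), fun l g hl hg hr => ?_⟩
  have hR := Rg_A hp hp1 hl hg hr
  rw [ha] at hR
  obtain ⟨k1, k2, k3, k4⟩ := four_A (Fl := FAl p l g) (Fg := FAg p l g) hR hp hp1 rfl rfl
  refine ⟨k1.trans ?_, k2.trans ?_, LE.le.trans (le_of_eq rfl) (k3.trans ?_),
    LE.le.trans (le_of_eq rfl) (k4.trans ?_), ?_⟩
  · exact (le_max_left _ _).trans (le_max_left _ _)
  · exact (le_max_right _ _).trans (le_max_left _ _)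
  · exact ((le_max_left _ _).trans (le_max_left _ _)).trans (le_max_right _ _)
  · exact ((le_max_right _ _).trans (le_max_left _ _)).trans (le_max_right _ _)
  · obtain ⟨h1, h2, h3, h4, h5, h6, h7⟩ := range_basic hp hp1 hl hg hr
    have hf : |FA p l g - l - -Real.log p| ≤ 20 * exp (-l) := by
      refine far hp hp1 h1 (Pool.EH.one_lt_A hp hp1 l hg) ?_ ?_
      · rw [mul_div_assoc', div_le_div_iff_of_pos_right hp]
        linarith
      · rw [mul_div_assoc', div_le_div_iff_of_pos_right hp]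
        linarith
    refine hf.trans (mul_le_mul_of_nonneg_right ?_ (exp_pos _).le)
    exact (le_max_right _ _).trans (le_max_right _ _)

theorem right_B {p : ℝ} (hp : 0 < p) (hp1 : p < 1) :
    ∃ K, ∀ l g, Real.log 8 ≤ l → 0 < g → |Real.cosh g - 2 * rho l| ≤ 1 →
      |FBl p l g| ≤ K ∧ |FBg p l g| ≤ K ∧ |FBgl p l g| ≤ K ∧ |FBgg p l g| ≤ K ∧
        |FB p l g - l - -Real.log (1 - p)| ≤ K * Real.exp (-l) := by
  have hq : 0 < 1 - p := by linarith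
  have hq1 : 1 - p < 1 := by linarith
  generalize ha : 3 / (1 - p) = a
  refine ⟨max (max (4 * (a + 5 / 2)) (4 * (5 / 2 * (a + 7 / 2))))
    (max (max (4 * (5 / 2 * (a * (4 * (a + 5 / 2)) + 1) +
        4 * (5 / 2 * (a + 7 / 2)) * ((a ^ 2 + 3 / 2 * a) * (4 * (a + 5 / 2)) + a)))
      (4 * (5 / 2 * (a + 7 / 2) + 25 / 4 + 5 * a * (4 * (5 / 2 * (a + 7 / 2))) +
        (a ^ 2 + 3 / 2 * a) * (4 * (5 / 2 * (a + 7 / 2))) ^ 2))) 20), fun l g hl hg hr => ?_⟩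
  have hR := Rg_B hp hp1 hl hg hr
  rw [ha] at hR
  obtain ⟨k1, k2, k3, k4⟩ := four_B (Fl := FBl p l g) (Fg := FBg p l g) hR hq hq1 rfl rfl
  refine ⟨k1.trans ?_, k2.trans ?_, LE.le.trans (le_of_eq rfl) (k3.trans ?_),
    LE.le.trans (le_of_eq rfl) (k4.trans ?_), ?_⟩
  · exact (le_max_left _ _).trans (le_max_left _ _)
  · exact (le_max_right _ _).trans (le_max_left _ _)
  · exact ((le_max_left _ _).trans (le_max_left _ _)).trans (le_max_right _ _)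
  · exact ((le_max_right _ _).trans (le_max_left _ _)).trans (le_max_right _ _)
  · obtain ⟨h1, h2, h3, h4, h5, h6, h7⟩ := range_basic hp hp1 hl hg hr
    have hf : |FB p l g - l - -Real.log (1 - p)| ≤ 20 * exp (-l) := by
      refine far hq hq1 h1 (Pool.EH.one_lt_B hp hp1 l hg) ?_ ?_
      · rw [mul_div_assoc', div_le_div_iff_of_pos_right hq]
        linarith
      · rw [mul_div_assoc', div_le_div_iff_of_pos_right hq]
        linarith
    refine hf.trans (mul_le_mul_of_nonneg_right ?_ (exp_pos _).le)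
    exact (le_max_right _ _).trans (le_max_right _ _)

end Pool.Agent.H84.EH
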